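import Mathlib

/-! Log discrepancies along a Wahl chain. -/

set_option autoImplicit false

namespace Pool.Agent.Lib.MP_1c0d65_gt.Num

/-- `γ` are the log discrepancies of the chain `b 1, ..., b l`. -/
structure Ch (l : ℕ) (b : ℕ → ℕ) (γ : ℕ → ℝ) : Prop where
  hl : 0 < l
  hb : ∀ t < l, 2 ≤ b (t + 1) ∧ γ t + γ (t + 2) = b (t + 1) * γ (t + 1)
  g0 : γ 0 = 1
  gl : γ (l + 1) = 1
  ends : γ 1 + γ l = 1
  pos : ∀ t ≤ l + 1, 0 < γ t

variable {l : ℕ} {b : ℕ → ℕ} {γ : ℕ → ℝ}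

theorem Ch.rev (h : Ch l b γ) : Ch l (fun t => b (l + 1 - t)) (fun t => γ (l + 1 - t)) where
  hl := h.hl
  hb t ht := by
    obtain ⟨s, rfl⟩ : ∃ s, l = t + 1 + s := ⟨l - (t + 1), by omega⟩
    have e0 : t + 1 + s + 1 - t = s + 2 := by omega
    have e1 : t + 1 + s + 1 - (t + 1) = s + 1 := by omega
    have e2 : t + 1 + s + 1 - (t + 2) = s := by omega
    have := h.hb s (by omega)
    simp only [e0, e1, e2]
    exact ⟨this.1, by linarith [this.2]⟩
  g0 := h.gl
  gl := by simpa using h.g0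
  ends := by
    have e : l + 1 - l = 1 := by omega
    simp only [e, Nat.add_sub_cancel]
    linarith [h.ends]
  pos t ht := h.pos _ (by omega)

theorem Ch.step (h : Ch l b γ) {t : ℕ} (ht : t < l) : γ (t + 1) - γ t ≤ γ (t + 2) - γ (t + 1) := by
  obtain ⟨h1, h2⟩ := h.hb t ht
  have h3 : (2 : ℝ) ≤ b (t + 1) := by exact_mod_cast h1
  have := h.pos (t + 1) (by omega)
  nlinarith

theorem Ch.mono (h : Ch l b γ) {s t : ℕ} (hst : s ≤ t) (ht : t ≤ l) :
    γ (s + 1) - γ s ≤ γ (t + 1) - γ t := by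
  induction t, hst using Nat.le_induction with
  | base => exact le_rfl
  | succ t _ ih => exact (ih (by omega)).trans (h.step (by omega))

theorem Ch.lo (h : Ch l b γ) {t : ℕ} (ht : t ≤ l) : -γ l ≤ γ (t + 1) - γ t := by
  have := h.mono (Nat.zero_le t) ht
  have h0 := h.g0
  have h1 := h.ends
  rw [zero_add] at this
  linarith

theorem Ch.hi (h : Ch l b γ) {t : ℕ} (ht : t ≤ l) : γ (t + 1) - γ t ≤ γ 1 := by
  have := h.mono ht le_rfl
  linarith [h.gl, h.ends]

theorem Ch.up (h : Ch l b γ) {s t : ℕ} (hs : γ s ≤ γ (s + 1)) (hst : s ≤ t) (ht : t ≤ l) :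
    γ s ≤ γ t := by
  induction t, hst using Nat.le_induction with
  | base => exact le_rfl
  | succ t h1 ih =>
    have := h.mono h1 (by omega)
    linarith [ih (by omega)]

theorem Ch.down (h : Ch l b γ) {s t : ℕ} (ht : γ (t + 1) ≤ γ t) (hst : s ≤ t) (hl : t ≤ l) :
    γ (t + 1) ≤ γ (s + 1) := by
  induction t, hst using Nat.le_induction with
  | base => exact le_rfl
  | succ t h1 ih =>
    have := h.step (t := t) (by omega)
    linarith [ih (by linarith) (by omega)]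

theorem Ch.le_or (h : Ch l b γ) {t : ℕ} (ht : t < l) : γ (t + 1) ≤ γ 1 ∨ γ (t + 1) ≤ γ l := by
  rcases le_total (γ (t + 1)) (γ (t + 2)) with h1 | h1
  · exact Or.inr (h.up h1 ht le_rfl)
  · have := h.step ht
    exact Or.inl (h.down (s := 0) (by linarith) (Nat.zero_le t) ht.le)

theorem Ch.le_one (h : Ch l b γ) {t : ℕ} (ht : t < l) : γ (t + 1) ≤ 1 := by
  have h1 := h.pos 1 (by omega)
  have h2 := h.pos l (by omega)
  rcases h.le_or ht with a | a <;> linarith [h.ends]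

theorem Ch.jump (h : Ch l b γ) {t : ℕ} (ht : t < l) : γ (t + 1) * ((b (t + 1) : ℝ) - 2) ≤ 1 := by
  have h1 := h.lo ht.le
  have h2 := h.hi (t := t + 1) ht
  have h3 := (h.hb t ht).2
  have h4 := h.ends
  nlinarith

theorem Ch.big (h : Ch l b γ) {t : ℕ} (ht : t < l) (h3 : 3 ≤ b (t + 1)) :
    γ (t + 1) ≤ γ 1 ∧ γ (t + 1) ≤ γ l := by
  have h1 := h.lo ht.le
  have h2 := h.hi (t := t + 1) ht
  have h4 := (h.hb t ht).2
  have h5 : (3 : ℝ) ≤ b (t + 1) := by exact_mod_cast h3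
  have h6 := h.pos (t + 1) (by omega)
  have h7 : 3 * γ (t + 1) ≤ γ t + γ (t + 2) := by nlinarith
  constructor
  · rcases le_total (γ (t + 1)) (γ t) with a | a
    · exact h.down (s := 0) a (Nat.zero_le t) ht.le
    · linarith
  · rcases le_total (γ (t + 1)) (γ (t + 2)) with a | a
    · exact h.up a ht le_rfl
    · linarith

theorem Ch.half (h : Ch l b γ) {t : ℕ} (ht : t < l) (h3 : 3 ≤ b (t + 1)) : γ (t + 1) ≤ 1 / 2 := by
  obtain ⟨h1, h2⟩ := h.big ht h3
  linarith [h.ends]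

theorem Ch.one (h : Ch 1 b γ) : b 1 = 4 ∧ γ 1 = 1 / 2 := by
  have h1 := h.ends
  have h2 := (h.hb 0 one_pos).2
  have h3 := h.g0
  have h4 := h.gl
  have h5 : γ 1 = 1 / 2 := by linarith
  simp only [zero_add] at h2
  refine ⟨?_, h5⟩
  have : (b 1 : ℝ) = 4 := by
    rw [h5, h3, h4] at h2
    linarith
  exact_mod_cast this

theorem Ch.key1 (h : Ch l b γ) (m : ℕ → ℤ) (hm : ∀ t < l, 1 ≤ m (t + 1))
    (hc : ∀ t < l, b (t + 1) = 2 → m t + m (t + 2) ≤ 2 * m (t + 1)) (s : ℕ) :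
    ∀ t, t + s + 1 = l → (m (t + 2) + 1 ≤ m (t + 1) ∨ 3 ≤ b (t + 1)) →
      γ (t + 1) ≤ m (t + 1) * γ l := by
  have hp := h.pos l (by omega)
  induction s with
  | zero =>
    intro t ht _
    have : (1 : ℝ) ≤ m (t + 1) := by exact_mod_cast hm t (by omega)
    have e : t + 1 = l := by omega
    rw [e] at this ⊢
    nlinarith
  | succ s ih =>
    intro t ht hor
    rcases hor with a | a
    · have h1 := ih (t + 1) (by omega) (by
        by_cases h2 : b (t + 1 + 1) = 2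
        · have := hc (t + 1) (by omega) h2
          left
          linarith
        · have := (h.hb (t + 1) (by omega)).1
          right
          omega)
      have h2 := h.lo (t := t + 1) (by omega)
      have h3 : (m (t + 2) : ℝ) + 1 ≤ m (t + 1) := by exact_mod_cast a
      nlinarith
    · have : (1 : ℝ) ≤ m (t + 1) := by exact_mod_cast hm t (by omega)
      have := (h.big (t := t) (by omega) a).2
      nlinarith

theorem Ch.key2 (h : Ch l b γ) (m : ℕ → ℤ) (hm : ∀ t < l, 1 ≤ m (t + 1))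
    (hc : ∀ t < l, b (t + 1) = 2 → m t + m (t + 2) ≤ 2 * m (t + 1)) (hle : γ l ≤ γ 1)
    {t : ℕ} (ht : t < l) (h1 : m (t + 2) + 1 ≤ m (t + 1)) :
    1 ≤ (m (t + 1) + 1) * (1 - γ (t + 1)) := by
  have h2 := h.key1 m hm hc (l - (t + 1)) t (by omega) (Or.inl h1)
  have h3 : γ (t + 1) ≤ γ 1 := by rcases h.le_or ht with a | a <;> linarith
  have h4 : (1 : ℝ) ≤ m (t + 1) := by exact_mod_cast hm t ht
  have h5 := h.ends
  nlinarith

/-- The key estimate. -/
theorem Ch.key (h : Ch l b γ) (m : ℕ → ℤ) (hm : ∀ t < l, 1 ≤ m (t + 1))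
    (hc : ∀ t < l, b (t + 1) = 2 → m t + m (t + 2) ≤ 2 * m (t + 1))
    {t : ℕ} (ht : t < l) (h1 : m (t + 2) + 1 ≤ m (t + 1)) (h2 : m t + 1 ≤ m (t + 1)) :
    1 ≤ (m (t + 1) + 1) * (1 - γ (t + 1)) := by
  rcases le_total (γ l) (γ 1) with a | a
  · exact h.key2 m hm hc a ht h1
  obtain ⟨s, rfl⟩ : ∃ s, l = t + 1 + s := ⟨l - (t + 1), by omega⟩
  have e1 : t + 1 + s + 1 - (s + 1) = t + 1 := by omega
  have e2 : t + 1 + s + 1 - (s + 2) = t := by omega
  have := h.rev.key2 (fun u => m (t + 1 + s + 1 - u)) (fun u hu => by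
      have e : t + 1 + s + 1 - (u + 1) = (t + s - u) + 1 := by omega
      simp only [e]
      exact hm _ (by omega)) (fun u hu hb => by
      have e0 : t + 1 + s + 1 - u = (t + s - u) + 2 := by omega
      have e1 : t + 1 + s + 1 - (u + 1) = (t + s - u) + 1 := by omega
      have e2 : t + 1 + s + 1 - (u + 2) = t + s - u := by omega
      simp only [e0, e1, e2] at hb ⊢
      have := hc _ (by omega) hb
      linarith) (by
      have e : t + 1 + s + 1 - (t + 1 + s) = 1 := by omega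
      simp only [e, Nat.add_sub_cancel]
      exact a) (t := s) (by omega) (by simp only [e1, e2]; exact h2)
  simpa only [e1] using this

end Pool.Agent.Lib.MP_1c0d65_gt.Num
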