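import Pool.Agent.Lib.MP_1c0d65_gt.Num.Chain
import Pool.Agent.Lib.MP_1c0d65_gt.Wahl

/-! Anticanonical cycles that contain Wahl chains: the data and the facts along the chains. -/

set_option autoImplicit false

namespace Pool.Agent.Lib.MP_1c0d65_gt.Num

open Finset

/-- The components of an anticanonical cycle, with `n` Wahl chains among them. -/
structure St (V : Type) [AddCommGroup V] [Module ℝ V] (ι : Type) [Fintype ι] (n : ℕ) where
  B : LinearMap.BilinForm ℝ V
  symm : ∀ x y, B x y = B y x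
  hodge : ∀ x y, 0 < B x x → B x y = 0 → y ≠ 0 → B y y < 0
  cl : ι → V
  μ : ι → ℤ
  hμ : ∀ x, 1 ≤ μ x
  I : ι → ι → ℤ
  hI : ∀ x y, B (cl x) (cl y) = I x y
  nn : ∀ x y, x ≠ y → 0 ≤ I x y
  adj : ∀ x, ∑ y, μ y * I y x ≤ I x x + 2
  l : Fin n → ℕ
  b : Fin n → ℕ → ℕ
  γ : Fin n → ℕ → ℝ
  ch : ∀ i, Ch (l i) (b i) (γ i)
  e : ∀ i, Fin (l i) → ι
  chain : ∀ i i' t t', I (e i t) (e i' t') = if i = i' ∧ t.1 = t'.1 then
      -(b i (t + 1) : ℤ) else if i = i' ∧ (t.1 + 1 = t'.1 ∨ t'.1 + 1 = t.1) then 1 else 0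
  sphere : ∀ i t, ∑ y, μ y * I y (e i t) = 2 - b i (t + 1)
  mpos : ∀ x, (∀ i t, x ≠ e i t) →
      ∑ i, ∑ t : Fin (l i), (1 - γ i (t + 1)) * I (e i t) x < ((∑ y, μ y * I y x : ℤ) : ℝ)

namespace St

variable {V : Type} [AddCommGroup V] [Module ℝ V] {ι : Type} [Fintype ι] {n : ℕ} (S : St V ι n)

theorem sy (x y : ι) : S.I x y = S.I y x := by
  have := S.symm (S.cl x) (S.cl y)
  rw [S.hI, S.hI] at this
  exact_mod_cast this

/-- `x` lies in the chain `i`. -/
def On (i : Fin n) (x : ι) : Prop := ∃ t, x = S.e i t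

/-- `x` lies in one of the chains. -/
def E (x : ι) : Prop := ∃ i, S.On i x

/-- The chain curves as one family. -/
def ee (p : Σ i, Fin (S.l i)) : ι := S.e p.1 p.2

theorem self (i : Fin n) (t : Fin (S.l i)) : S.I (S.e i t) (S.e i t) = -S.b i (t + 1) := by
  rw [S.chain, if_pos ⟨rfl, rfl⟩]

theorem two (i : Fin n) (t : Fin (S.l i)) : (2 : ℤ) ≤ S.b i (t + 1) := by
  exact_mod_cast ((S.ch i).hb t t.2).1

theorem ee_inj : Function.Injective S.ee := by
  rintro ⟨i, t⟩ ⟨i', t'⟩ h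
  have h1 := S.self i t
  have h2 := S.two i t
  have h3 : S.e i t = S.e i' t' := h
  conv_lhs at h1 => enter [3]; rw [h3]
  rw [S.chain] at h1
  split_ifs at h1 with a1 a2
  · obtain ⟨rfl, a⟩ := a1
    rw [Fin.ext a]
  · omega
  · omega

variable {S}

theorem On.uniq {i j : Fin n} {x : ι} (h : S.On i x) (h' : S.On j x) : i = j := by
  obtain ⟨t, rfl⟩ := h
  obtain ⟨t', h'⟩ := h'
  exact congrArg Sigma.fst (S.ee_inj (a₁ := ⟨i, t⟩) (a₂ := ⟨j, t'⟩) h')

theorem On.same {i j : Fin n} {x y : ι} (h : S.On i x) (h' : S.On j y) (h0 : S.I x y ≠ 0) :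
    i = j := by
  obtain ⟨t, rfl⟩ := h
  obtain ⟨t', rfl⟩ := h'
  by_contra hne
  exact h0 (by rw [S.chain]; simp [hne])

theorem E.neg {x : ι} (h : S.E x) : S.I x x ≤ -2 := by
  obtain ⟨i, t, rfl⟩ := h
  rw [S.self]
  linarith [S.two i t]

variable (S)

open Classical in
/-- The components outside the chains. -/
noncomputable def off : Finset ι := univ.filter fun x => ¬ S.E x

@[simp] theorem mem_off {x : ι} : x ∈ S.off ↔ ¬ S.E x := by simp [off]

theorem split {R : Type} [AddCommMonoid R] (f : ι → R) :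
    ∑ x, f x = ∑ p, f (S.ee p) + ∑ x ∈ S.off, f x := by
  classical
  rw [← sum_filter_add_sum_filter_not univ S.E f]
  congr 1
  rw [← sum_image (s := univ) (g := S.ee) fun p _ q _ h => S.ee_inj h]
  refine sum_congr ?_ fun _ _ => rfl
  ext x
  simp only [mem_filter, mem_univ, true_and, mem_image]
  exact ⟨fun ⟨i, t, h⟩ => ⟨⟨i, t⟩, h.symm⟩, fun ⟨p, h⟩ => ⟨p.1, p.2, h.symm⟩⟩

/-- The values of `z` along the chain `i`, zero at both ends. -/
def seq {R : Type} [Zero R] (z : ι → R) (i : Fin n) : ℕ → R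
  | 0 => 0
  | (m + 1) => if h : m < S.l i then z (S.e i ⟨m, h⟩) else 0

theorem seq_in {R : Type} [Zero R] (z : ι → R) (i : Fin n) (t : Fin (S.l i)) :
    S.seq z i (t + 1) = z (S.e i t) := by simp [seq]

theorem seq_out {R : Type} [Zero R] (z : ι → R) (i : Fin n) {m : ℕ} (h : S.l i ≤ m) :
    S.seq z i (m + 1) = 0 := by simp [seq, not_lt.2 h]

theorem pair {R : Type} [CommRing R] (z : ι → R) (i : Fin n) (k : Fin (S.l i)) :
    ∑ p, z (S.ee p) * (S.I (S.ee p) (S.e i k) : R) =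
      S.seq z i k - S.b i (k + 1) * S.seq z i (k + 1) + S.seq z i (k + 2) := by
  obtain ⟨k, hk⟩ := k
  rw [Fintype.sum_sigma, sum_eq_single i]
  · have h1 : ∀ j : Fin (S.l i), z (S.ee ⟨i, j⟩) * (S.I (S.ee ⟨i, j⟩) (S.e i ⟨k, hk⟩) : R) =
        (fun j : ℕ => (if j + 1 = k then S.seq z i k else 0) -
          (if j = k then S.b i (k + 1) * S.seq z i (k + 1) else 0) +
          (if j = k + 1 then S.seq z i (k + 2) else 0)) j := fun j => by
      simp only [ee]
      rw [S.chain, ← S.seq_in z i j]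
      by_cases a1 : (j : ℕ) = k
      · simp [a1]; ring
      by_cases a2 : (j : ℕ) + 1 = k
      · have : (j : ℕ) ≠ k + 1 := by omega
        simp [a1, a2, this]
      by_cases a3 : (j : ℕ) = k + 1
      · have : k + 1 + 1 ≠ k := by omega
        simp [a3, this]
      · have : k + 1 ≠ j := fun h => a3 h.symm
        simp [a1, a2, a3, this]
    refine ((sum_congr rfl fun j _ => h1 j).trans (Fin.sum_univ_eq_sum_range (fun j : ℕ =>
      (if j + 1 = k then S.seq z i k else 0) -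
        (if j = k then S.b i (k + 1) * S.seq z i (k + 1) else 0) +
          (if j = k + 1 then S.seq z i (k + 2) else 0)) (S.l i))).trans ?_
    rw [sum_add_distrib, sum_sub_distrib, sum_ite_eq', sum_ite_eq', if_pos (mem_range.2 hk)]
    congr 1
    · congr 1
      rcases k with _ | k
      · simp [seq]
      · simp only [Nat.add_right_cancel_iff]
        rw [sum_ite_eq', if_pos (mem_range.2 (by omega))]
    · split_ifs with h
      · rfl
      · exact (S.seq_out z i (by simpa using h)).symm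
  · intro i' _ hne
    refine sum_eq_zero fun j _ => ?_
    simp only [ee]
    rw [S.chain]
    simp [hne]
  · simp

open Classical in
/-- The discrepancy of a component. -/
noncomputable def d (x : ι) : ℝ := ∑ p, if S.ee p = x then 1 - S.γ p.1 (p.2 + 1) else 0

theorem d_e (i : Fin n) (t : Fin (S.l i)) : S.d (S.e i t) = 1 - S.γ i (t + 1) := by
  unfold d
  rw [sum_eq_single ⟨i, t⟩]
  · exact if_pos rfl
  · exact fun p _ hp => if_neg fun h => hp (S.ee_inj (a₂ := ⟨i, t⟩) h)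
  · simp

theorem d_off {x : ι} (h : ¬ S.E x) : S.d x = 0 :=
  sum_eq_zero fun p _ => if_neg fun a => h ⟨p.1, p.2, a.symm⟩

theorem d_mem (x : ι) : 0 ≤ S.d x ∧ S.d x < 1 := by
  by_cases h : S.E x
  · obtain ⟨i, t, rfl⟩ := h
    rw [S.d_e]
    have h1 := (S.ch i).le_one t.2
    have h2 := (S.ch i).pos (t + 1) (by omega)
    constructor <;> linarith
  · rw [S.d_off h]
    exact ⟨le_rfl, one_pos⟩

theorem seq_d (i : Fin n) {t : ℕ} (ht : t ≤ S.l i + 1) : S.seq S.d i t = 1 - S.γ i t := by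
  rcases t with _ | t
  · simp [seq, (S.ch i).g0]
  rcases lt_or_ge t (S.l i) with h | h
  · exact (S.seq_in _ i ⟨t, h⟩).trans (S.d_e i ⟨t, h⟩)
  · have : t = S.l i := by omega
    rw [S.seq_out _ _ h, this, (S.ch i).gl, sub_self]

theorem sum_d (f : ι → ℝ) : ∑ y, S.d y * f y = ∑ p, S.d (S.ee p) * f (S.ee p) := by
  rw [S.split, sum_eq_zero (s := S.off), add_zero]
  intro y hy
  rw [S.d_off (by simpa using hy), zero_mul]

variable {S}

theorem E.dI {x : ι} (h : S.E x) : ∑ y, S.d y * S.I y x = ((∑ y, S.μ y * S.I y x : ℤ) : ℝ) := by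
  obtain ⟨i, t, rfl⟩ := h
  rw [S.sum_d, S.pair, S.sphere, S.seq_d i (by omega), S.seq_d i (by omega), S.seq_d i (by omega)]
  have := ((S.ch i).hb t t.2).2
  push_cast
  linarith

theorem dI_lt {x : ι} (h : ¬ S.E x) :
    ∑ y, S.d y * S.I y x < ((∑ y, S.μ y * S.I y x : ℤ) : ℝ) := by
  rw [S.sum_d, Fintype.sum_sigma]
  simpa only [ee, S.d_e] using S.mpos x fun i t a => h ⟨i, t, a⟩

theorem E.half {x : ι} (h : S.E x) (h3 : S.I x x ≤ -3) : 1 / 2 ≤ S.d x := by
  obtain ⟨i, t, rfl⟩ := h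
  rw [S.self] at h3
  rw [S.d_e]
  linarith [(S.ch i).half t.2 (by omega)]

theorem E.jump {x : ι} (h : S.E x) : (1 - S.d x) * (-(S.I x x : ℝ) - 2) ≤ 1 := by
  obtain ⟨i, t, rfl⟩ := h
  rw [S.self, S.d_e]
  simpa using (S.ch i).jump t.2

theorem chain_sum (i : Fin n) (t : Fin (S.l i)) (T : Finset ι) (hT : ∀ y ∈ T, ¬ S.E y) :
    S.seq S.μ i t + S.seq S.μ i (t + 2) + ∑ y ∈ T, S.μ y * S.I y (S.e i t) ≤
      2 + S.b i (t + 1) * (S.seq S.μ i (t + 1) - 1) := by
  have h1 := S.sphere i t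
  have h2 := S.pair S.μ i t
  simp only [Int.cast_id] at h2
  rw [S.split, h2] at h1
  have h3 : ∑ y ∈ T, S.μ y * S.I y (S.e i t) ≤
      ∑ y ∈ S.off, S.μ y * S.I y (S.e i t) :=
    sum_le_sum_of_subset_of_nonneg (fun y hy => by simpa using hT y hy) fun y hy _ =>
      mul_nonneg (by linarith [S.hμ y]) (S.nn _ _ fun a => S.mem_off.1 hy ⟨i, t, a⟩)
  linarith

theorem seq_nn {z : ι → ℤ} (hz : ∀ x, 0 ≤ z x) (i : Fin n) (u : ℕ) : 0 ≤ S.seq z i u := by
  rcases u with _ | u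
  · exact le_rfl
  · simp only [seq]
    split_ifs
    · exact hz _
    · exact le_rfl

theorem key (i : Fin n) (t : Fin (S.l i))
    (hm : S.seq S.μ i t + S.seq S.μ i (t + 2) ≤ S.μ (S.e i t) - 1) :
    1 ≤ (S.μ (S.e i t) + 1) * S.d (S.e i t) := by
  have p := seq_nn (S := S) (z := S.μ) (fun x => by linarith [S.hμ x]) i
  rw [← S.seq_in S.μ i t] at hm
  have := (S.ch i).key (S.seq S.μ i) (fun u hu => by
    rw [S.seq_in S.μ i ⟨u, hu⟩]; exact S.hμ _) (fun u hu hb => by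
    have := chain_sum (S := S) i ⟨u, hu⟩ ∅ (by simp)
    simp only [hb, sum_empty] at this
    push_cast at this
    linarith) t.2 (by linarith [p t]) (by linarith [p (t + 2)])
  rwa [S.seq_in, ← S.d_e] at this

theorem indep (x : ι → ℝ) (h : ∀ i t, ∑ p, x (S.ee p) * S.I (S.ee p) (S.e i t) = 0)
    {y : ι} (hy : S.E y) : x y = 0 := by
  obtain ⟨i, t, rfl⟩ := hy
  have hb : ∀ j < S.l i, (2 : ℝ) ≤ S.b i (j + 1) := fun j hj => by
    exact_mod_cast ((S.ch i).hb j hj).1
  have h1 : ∀ j < S.l i, S.seq x i j + S.seq x i (j + 2) = S.b i (j + 1) * S.seq x i (j + 1) :=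
    fun j hj => by
      have := h i ⟨j, hj⟩
      rw [S.pair] at this
      linarith
  have h2 := minp (S.l i) (fun j => S.b i (j + 1)) (S.seq x i) hb le_rfl
    (S.seq_out x i le_rfl).ge (fun j hj => (h1 j hj).le) (t + 1) (by omega)
  have h3 := minp (S.l i) (fun j => S.b i (j + 1)) (fun j => -S.seq x i j) hb (by simp [seq])
    (by simp [S.seq_out x i le_rfl]) (fun j hj => by linarith [h1 j hj]) (t + 1) (by omega)
  rw [S.seq_in] at h2
  simp only [S.seq_in] at h3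
  linarith

end St

end Pool.Agent.Lib.MP_1c0d65_gt.Num
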